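import Pool.Agent.E8helper2.PS.Stm

set_option autoImplicit false
open Filter Topology
namespace Pool.Agent.E8helper90.PS
open Pool.Agent.E8helper2.PS

theorem norm_ex (n : ℕ) (θ t : ℝ) :
    ‖Complex.exp (Complex.I * n * ((θ : ℂ) + t * Complex.I))‖ = Real.exp (-t) ^ n := by
  rw [Complex.norm_exp, ← Real.exp_nat_mul]
  congr 1
  simp

theorem t_SEC (hP : S_POLY) : S_SEC := by
  intro c M κ κ' hc hw hw' hk θ t h1 h2 hor ht
  have hM : 0 ≤ M := (norm_nonneg _).trans (hc 0)
  have hE1 : ∀ s : ℝ, 1 + s ≤ Real.exp s := fun s => by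
    rw [add_comm]
    exact Real.add_one_le_exp s
  have hinv : ∀ s : ℝ, 0 < s → Real.exp (-s) ≤ 1 / (1 + s) := by
    intro s hs
    rw [Real.exp_neg, ← one_div]
    exact one_div_le_one_div_of_le (by linarith) (hE1 s)
  have hq0 : 0 ≤ Real.exp (-t) := (Real.exp_pos _).le
  have hq1 : Real.exp (-t) < 1 := by
    rw [Real.exp_lt_one_iff]
    linarith
  have hb : ∀ n : ℕ, ‖c n * Complex.exp (Complex.I * n * ((θ : ℂ) + t * Complex.I))‖ ≤
      M * Real.exp (-t) ^ n := by
    intro n
    rw [norm_mul, norm_ex]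
    exact mul_le_mul_of_nonneg_right (hc n) (pow_nonneg hq0 n)
  have hgs : HasSum (fun n : ℕ => M * Real.exp (-t) ^ n) (M * (1 - Real.exp (-t))⁻¹) :=
    (hasSum_geometric_of_lt_one hq0 hq1).mul_left M
  by_cases hhalf : 1 / 2 ≤ t
  · refine (tsum_of_norm_bounded hgs hb).trans ?_
    rw [mul_comm]
    refine mul_le_mul_of_nonneg_right ?_ hM
    have h3 : Real.exp (-t) ≤ 3 / 4 := by
      refine (hinv t ht).trans ?_
      rw [div_le_div_iff₀ (by linarith) (by norm_num)]
      linarith
    rw [inv_le_comm₀ (by linarith) (by norm_num)]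
    linarith
  · push Not at hhalf
    have hα : κ' - κ ≤ t := by
      rcases hor with h | h
      · exact h
      · linarith
    have hα0 : 0 < κ' - κ := by linarith
    obtain ⟨l, hl⟩ : ∃ l : ℕ, l = ⌊1 / (κ' - κ)⌋₊ + 1 := ⟨_, rfl⟩
    have hl1 : 1 ≤ l := by omega
    have hla : 1 < (l : ℝ) * (κ' - κ) := by
      have h3 := Nat.lt_floor_add_one (1 / (κ' - κ))
      rw [div_lt_iff₀ hα0] at h3
      rw [hl]
      push_cast
      exact h3
    have hlb : (l : ℝ) * (κ' - κ) ≤ 3 / 2 := by
      have h3 := Nat.floor_le (a := 1 / (κ' - κ)) (by positivity)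
      rw [le_div_iff₀ hα0] at h3
      rw [hl]
      push_cast
      linarith
    have hlt : 1 ≤ (l : ℝ) * t :=
      hla.le.trans (mul_le_mul_of_nonneg_left hα (Nat.cast_nonneg l))
    have hwre : ((θ : ℂ) + t * Complex.I).re = θ := by simp
    have hwim : ((θ : ℂ) + t * Complex.I).im = t := by simp
    have hpoly : ∀ p : ℕ, ‖∑ j ∈ Finset.range l, c (p + j) *
        Complex.exp (Complex.I * j * ((θ : ℂ) + t * Complex.I))‖ ≤ 2 * M := fun p =>
      hP c M κ κ' l hw hw' hk hlb hl1 p _ (by rw [hwre]; exact h1) (by rw [hwre]; exact h2)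
        (by rw [hwim]; exact ht.le)
    obtain ⟨q, hq⟩ : ∃ q : ℝ, q = Real.exp (-t) ^ l := ⟨_, rfl⟩
    have hqn : 0 ≤ q := by rw [hq]; exact pow_nonneg hq0 l
    have hqh : q ≤ 1 / 2 := by
      rw [hq, ← Real.exp_nat_mul, mul_neg]
      refine (hinv _ (by linarith)).trans ?_
      exact one_div_le_one_div_of_le (by norm_num) (by linarith)
    have hblock : ∀ K : ℕ, ‖∑ n ∈ Finset.range (K * l), c n *
        Complex.exp (Complex.I * n * ((θ : ℂ) + t * Complex.I))‖ ≤
        2 * M * ∑ k ∈ Finset.range K, q ^ k := by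
      intro K
      induction K with
      | zero => simp
      | succ K ih =>
        rw [Nat.succ_mul, Finset.sum_range_add, Finset.sum_range_succ, mul_add]
        refine (norm_add_le _ _).trans (add_le_add ih ?_)
        have h3 : ∑ x ∈ Finset.range l, c (K * l + x) *
            Complex.exp (Complex.I * ((K * l + x : ℕ) : ℂ) * ((θ : ℂ) + t * Complex.I)) =
            Complex.exp (Complex.I * ((K * l : ℕ) : ℂ) * ((θ : ℂ) + t * Complex.I)) *
            ∑ x ∈ Finset.range l, c (K * l + x) *
              Complex.exp (Complex.I * x * ((θ : ℂ) + t * Complex.I)) := by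
          rw [Finset.mul_sum]
          refine Finset.sum_congr rfl fun x _ => ?_
          rw [mul_left_comm, ← Complex.exp_add]
          congr 2
          push_cast
          ring
        rw [h3, norm_mul, norm_ex, mul_comm (2 * M)]
        have h4 : Real.exp (-t) ^ (K * l) = q ^ K := by
          rw [hq, ← pow_mul, mul_comm]
        rw [h4]
        exact mul_le_mul_of_nonneg_left (hpoly _) (pow_nonneg hqn K)
    have hgeo : ∀ K : ℕ, ∑ k ∈ Finset.range K, q ^ k ≤ 2 := by
      intro K
      have hq2 : q < 1 := by linarith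
      refine ((summable_geometric_of_lt_one hqn hq2).sum_le_tsum (Finset.range K)
        fun i _ => pow_nonneg hqn i).trans ?_
      rw [tsum_geometric_of_lt_one hqn hq2, inv_le_comm₀ (by linarith) (by norm_num)]
      linarith
    have hsum : HasSum (fun n : ℕ => c n * Complex.exp (Complex.I * n * ((θ : ℂ) + t * Complex.I)))
        (Phi c ((θ : ℂ) + t * Complex.I)) :=
      (Summable.of_norm_bounded hgs.summable hb).hasSum
    have hlim := (hsum.tendsto_sum_nat).comp
      (tendsto_atTop_mono (fun K : ℕ => Nat.le_mul_of_pos_right K hl1) tendsto_id)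
    refine le_of_tendsto hlim.norm (Eventually.of_forall fun K => ?_)
    refine (hblock K).trans ?_
    nlinarith [hgeo K]

end Pool.Agent.E8helper90.PS
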